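import Mathlib

set_option autoImplicit false

namespace Pool.Agent.Y574.LC

open MeasureTheory Filter Topology Module

/-- A regular cone: a nonempty open convex set, invariant under multiplication by positive scalars,
which contains no entire straight line. -/
structure RegularCone {ι : Type} [Fintype ι] (Γ : Set (ι → ℝ)) : Prop where
  nonempty : Γ.Nonempty
  isOpen : IsOpen Γ
  convex : Convex ℝ Γ
  smul_mem : ∀ y ∈ Γ, ∀ t : ℝ, 0 < t → t • y ∈ Γ
  no_line : ∀ y v : ι → ℝ, v ≠ 0 → ∃ t : ℝ, y + t • v ∉ Γ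

variable {ι : Type} [Fintype ι]

lemma RegularCone.add_mem {Γ : Set (ι → ℝ)} (h : RegularCone Γ) {a b : ι → ℝ} (ha : a ∈ Γ)
    (hb : b ∈ Γ) : a + b ∈ Γ := by
  have h1 := h.convex ha hb (by norm_num : (0:ℝ) ≤ 1/2) (by norm_num : (0:ℝ) ≤ 1/2) (by norm_num)
  have h2 := h.smul_mem _ h1 2 (by norm_num)
  convert h2 using 1
  rw [smul_add, smul_smul, smul_smul]
  norm_num

/-- some functional that is nonnegative on the cone does not vanish at a given nonzero vector -/
lemma RegularCone.exists_dual {Γ : Set (ι → ℝ)} (h : RegularCone Γ) {v : ι → ℝ} (hv : v ≠ 0) :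
    ∃ f : (ι → ℝ) →ₗ[ℝ] ℝ, (∀ y ∈ Γ, 0 ≤ f y) ∧ f v ≠ 0 := by
  by_contra hcon
  push Not at hcon
  have hcl : ∀ t : ℝ, t • v ∈ closure Γ := by
    intro t
    by_contra ht
    obtain ⟨f, u, hf, hu⟩ := geometric_hahn_banach_closed_point h.convex.closure isClosed_closure ht
    have hneg : ∀ y ∈ Γ, f y ≤ 0 := by
      intro y hy
      by_contra hy0
      push Not at hy0
      have h1 : ∀ s : ℝ, 0 < s → s * f y < u := by
        intro s hs
        have := hf _ (subset_closure (h.smul_mem y hy s hs))
        simpa using this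
      have h2 := h1 (|u| / f y + 1) (by positivity)
      have h3 : (|u| / f y + 1) * f y = |u| + f y := by field_simp
      rw [h3] at h2
      have := le_abs_self u
      linarith
    have hu0 : 0 ≤ u := by
      obtain ⟨y, hy⟩ := h.nonempty
      by_contra hu0
      push Not at hu0
      have hfy := hneg y hy
      have hs : 0 < (-u) / (2 * (1 + |f y|)) := by
        have := abs_nonneg (f y)
        apply div_pos <;> linarith
      have h1 := hf _ (subset_closure (h.smul_mem y hy _ hs))
      have h2 : (-u) / (2 * (1 + |f y|)) * f y < u := by simpa using h1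
      have h3 : -((-u) / (2 * (1 + |f y|)) * |f y|) ≤ (-u) / (2 * (1 + |f y|)) * f y := by
        have := neg_abs_le (f y)
        nlinarith
      have h4 : (-u) / (2 * (1 + |f y|)) * |f y| ≤ -u / 2 := by
        have hp : 0 < 1 + |f y| := by positivity
        rw [div_mul_eq_mul_div, div_le_div_iff₀ (by positivity) (by norm_num)]
        nlinarith [abs_nonneg (f y)]
      linarith
    have h5 := hcon (-(f : (ι → ℝ) →ₗ[ℝ] ℝ)) (fun y hy => by
      have := hneg y hy
      simpa using this)
    have h6 : f v = 0 := by simpa using h5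
    have h7 : f (t • v) = 0 := by simp [h6]
    linarith
  obtain ⟨y, hy⟩ := h.nonempty
  obtain ⟨t, ht⟩ := h.no_line y v hv
  apply ht
  have hopen : IsOpen {u : ι → ℝ | y - (u - t • v) ∈ Γ} := by
    exact h.isOpen.preimage (by fun_prop)
  obtain ⟨u, hu1, hu2⟩ := mem_closure_iff.1 (hcl t) _ hopen (by simpa using hy)
  have := h.add_mem hu1 hu2
  convert this using 1
  abel

/-- A linear map on a space with a regular cone is completed to a linear isomorphism by functionals
which are nonnegative on the cone. -/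
lemma RegularCone.exists_compl {Γ : Set (ι → ℝ)} (h : RegularCone Γ) {n : ℕ}
    (L : (ι → ℝ) →ₗ[ℝ] (Fin n → ℝ)) (hL : Function.Surjective L) :
    ∃ (κ : Type) (_ : Fintype κ) (P : (ι → ℝ) →ₗ[ℝ] (κ → ℝ)),
      (∀ y ∈ Γ, ∀ k, 0 ≤ P y k) ∧ Function.Bijective (L.prod P) := by
  classical
  set K := LinearMap.ker L with hK
  set S : Set (Dual ℝ K) := {g | ∃ f : (ι → ℝ) →ₗ[ℝ] ℝ, (∀ y ∈ Γ, 0 ≤ f y) ∧
    g = f ∘ₗ K.subtype} with hS
  have hspan : Submodule.span ℝ S = ⊤ := by
    by_contra hne
    obtain ⟨φ, hφ0, hφ⟩ := Submodule.exists_le_ker_of_lt_top _ (lt_top_iff_ne_top.2 hne)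
    obtain ⟨v, rfl⟩ := (evalEquiv ℝ K).surjective φ
    have hv : v ≠ 0 := by
      rintro rfl
      exact hφ0 (map_zero _)
    have hv' : (v : ι → ℝ) ≠ 0 := by
      intro h0
      exact hv (Subtype.ext h0)
    obtain ⟨f, hf, hfv⟩ := h.exists_dual hv'
    have h1 : f ∘ₗ K.subtype ∈ Submodule.span ℝ S := Submodule.subset_span ⟨f, hf, rfl⟩
    have h2 := hφ h1
    rw [LinearMap.mem_ker] at h2
    apply hfv
    simpa using h2
  obtain ⟨b, hbS, hbspan, hbli⟩ := exists_linearIndependent ℝ S
  rw [hspan] at hbspan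
  have hbfin : Finite b := hbli.finite
  have : Fintype b := Fintype.ofFinite b
  choose f hf hfg using fun g : b => hbS g.2
  have hcard : Fintype.card b = finrank ℝ K := by
    let B := Basis.mk hbli (by rw [Subtype.range_coe_subtype]; simp [hbspan])
    rw [← Subspace.dual_finrank_eq, finrank_eq_card_basis B]
  refine ⟨b, inferInstance, LinearMap.pi f, fun y hy k => hf k y hy, ?_⟩
  have hinj : Function.Injective (L.prod (LinearMap.pi f)) := by
    rw [injective_iff_map_eq_zero]
    intro x hx
    have hx1 : L x = 0 := congrArg Prod.fst hx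
    have hx2 : ∀ g : b, f g x = 0 := fun g => congrFun (congrArg Prod.snd hx) g
    have hker : ∀ g : Dual ℝ K, g ⟨x, hx1⟩ = 0 := by
      intro g
      have hg : g ∈ Submodule.span ℝ b := by rw [hbspan]; trivial
      induction hg using Submodule.span_induction with
      | mem g hg =>
        have := congrArg (fun w : Dual ℝ K => w ⟨x, hx1⟩) (hfg ⟨g, hg⟩)
        simp only at this
        rw [this]
        exact hx2 ⟨g, hg⟩
      | zero => rfl
      | add a c _ _ ha hc => rw [LinearMap.add_apply, ha, hc, add_zero]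
      | smul r a _ ha => rw [LinearMap.smul_apply, ha, smul_zero]
    have := (forall_dual_apply_eq_zero_iff ℝ (⟨x, hx1⟩ : K)).1 hker
    exact congrArg Subtype.val this
  refine ⟨hinj, ?_⟩
  have hdim : finrank ℝ (ι → ℝ) = finrank ℝ ((Fin n → ℝ) × (b → ℝ)) := by
    have h1 := LinearMap.finrank_range_add_finrank_ker L
    rw [LinearMap.range_eq_top.2 hL, finrank_top] at h1
    rw [finrank_prod, finrank_fintype_fun_eq_card ℝ (η := b), hcard]
    exact h1.symm
  exact (LinearMap.injective_iff_surjective_of_finrank_eq_finrank hdim).1 hinj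

end Pool.Agent.Y574.LC
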