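import Mathlib
import Pool.Agent.Y574.LC.A

set_option autoImplicit false

namespace Pool.Agent.Y574.LC

open MeasureTheory Filter Topology Module

/-- The point `x + i y` of `ℂ^ι`. -/
def pt {ι : Type} (x y : ι → ℝ) : ι → ℂ := fun k => (x k : ℂ) + (y k : ℂ) * Complex.I

/-- `F` belongs to `H^p(T_Γ)`: it is holomorphic on the tube `{z : Im z ∈ Γ}`, and the integrals
`∫ |F(x + i y)|^p dx` are bounded uniformly in `y ∈ Γ`. -/
def InHardy {ι : Type} [Fintype ι] (Γ : Set (ι → ℝ)) (p : ℝ) (F : (ι → ℂ) → ℂ) : Prop :=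
  DifferentiableOn ℂ F {z | (fun k => (z k).im) ∈ Γ} ∧
    ∃ C : ℝ, ∀ y ∈ Γ, ∫⁻ x : ι → ℝ, ‖F (pt x y)‖ₑ ^ p ≤ ENNReal.ofReal C

section cx
variable {ι κ : Type} [Fintype ι] [DecidableEq ι]

/-- the complexification of a real linear map -/
noncomputable def cx (L : (ι → ℝ) →ₗ[ℝ] (κ → ℝ)) (z : ι → ℂ) : κ → ℂ :=
  fun k => ∑ i, ((L (Pi.single i 1) k : ℝ) : ℂ) * z i

lemma expand (L : (ι → ℝ) →ₗ[ℝ] (κ → ℝ)) (x : ι → ℝ) (k : κ) :
    L x k = ∑ i, L (Pi.single i 1) k * x i := by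
  have h : x = ∑ i, x i • (Pi.single i (1:ℝ) : ι → ℝ) := by
    ext j
    simp [Finset.sum_apply, Pi.single_apply]
  conv_lhs => rw [h]
  rw [map_sum, Finset.sum_apply]
  refine Finset.sum_congr rfl fun i _ => ?_
  rw [map_smul, Pi.smul_apply, smul_eq_mul, mul_comm]

lemma cx_pt (L : (ι → ℝ) →ₗ[ℝ] (κ → ℝ)) (x y : ι → ℝ) : cx L (pt x y) = pt (L x) (L y) := by
  ext k
  simp only [cx, pt]
  rw [expand L x k, expand L y k]
  push_cast
  rw [Finset.sum_mul, ← Finset.sum_add_distrib]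
  refine Finset.sum_congr rfl fun i _ => ?_
  ring

lemma cx_im (L : (ι → ℝ) →ₗ[ℝ] (κ → ℝ)) (z : ι → ℂ) :
    (fun k => (cx L z k).im) = L (fun i => (z i).im) := by
  ext k
  rw [expand L _ k]
  simp only [cx, Complex.im_sum]
  refine Finset.sum_congr rfl fun i _ => ?_
  simp

lemma cx_diff [Fintype κ] (L : (ι → ℝ) →ₗ[ℝ] (κ → ℝ)) : Differentiable ℂ (cx L) := by
  unfold cx
  rw [differentiable_pi]
  intro k
  fun_prop

end cx

/-- a bounded holomorphic factor -/
noncomputable def fac {κ : Type} [Fintype κ] (q : ℕ) (w : κ → ℂ) : ℂ := ∏ k, ((w k + Complex.I)⁻¹) ^ q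

lemma fac_bound {κ : Type} [Fintype κ] (q : ℕ) (u v : κ → ℝ) (hv : ∀ k, 0 ≤ v k) :
    ‖fac q (pt u v)‖ ≤ ((1 + ‖u‖ ^ 2) ^ (-(1:ℝ) / 2)) ^ q := by
  have hk : ∀ k, 1 + u k ^ 2 ≤ ‖pt u v k + Complex.I‖ ^ 2 := by
    intro k
    rw [← Complex.normSq_eq_norm_sq, Complex.normSq_apply]
    simp only [pt, Complex.add_re, Complex.ofReal_re, Complex.mul_re, Complex.I_re, mul_zero,
      Complex.ofReal_im, Complex.I_im, mul_one, sub_self, add_zero, Complex.add_im, Complex.mul_im,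
      zero_add]
    nlinarith [hv k]
  have hk1 : ∀ k, ‖(pt u v k + Complex.I)⁻¹‖ ≤ (1 + u k ^ 2) ^ (-(1:ℝ) / 2) := by
    intro k
    have hpos : 0 < 1 + u k ^ 2 := by positivity
    have h1 : Real.sqrt (1 + u k ^ 2) ≤ ‖pt u v k + Complex.I‖ := by
      rw [Real.sqrt_le_left (norm_nonneg _)]
      exact hk k
    rw [norm_inv, neg_div, Real.rpow_neg hpos.le, ← Real.sqrt_eq_rpow]
    exact inv_anti₀ (Real.sqrt_pos.2 hpos) h1
  unfold fac
  rw [norm_prod]
  simp only [norm_pow]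
  rw [Finset.prod_pow]
  refine pow_le_pow_left₀ (Finset.prod_nonneg fun _ _ => norm_nonneg _) ?_ q
  have hle1 : ∀ k, (1 + u k ^ 2) ^ (-(1:ℝ) / 2) ≤ 1 := by
    intro k
    apply Real.rpow_le_one_of_one_le_of_nonpos
    · nlinarith [sq_nonneg (u k)]
    · norm_num
  by_cases hne : Nonempty κ
  · obtain ⟨k0, hk0⟩ := Finite.exists_max (fun k => ‖u k‖)
    have hnorm : ‖u‖ = ‖u k0‖ := by
      apply le_antisymm
      · rw [pi_norm_le_iff_of_nonneg (norm_nonneg _)]
        exact hk0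
      · exact norm_le_pi_norm u k0
    calc ∏ k, ‖(pt u v k + Complex.I)⁻¹‖
        ≤ ‖(pt u v k0 + Complex.I)⁻¹‖ := by
          classical
          rw [← Finset.mul_prod_erase _ _ (Finset.mem_univ k0)]
          refine mul_le_of_le_one_right (norm_nonneg _) ?_
          exact Finset.prod_le_one (fun _ _ => norm_nonneg _) (fun k _ => (hk1 k).trans (hle1 k))
      _ ≤ (1 + u k0 ^ 2) ^ (-(1:ℝ) / 2) := hk1 k0
      _ = (1 + ‖u‖ ^ 2) ^ (-(1:ℝ) / 2) := by
          rw [hnorm, Real.norm_eq_abs, sq_abs]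
  · rw [not_nonempty_iff] at hne
    have : u = 0 := Subsingleton.elim _ _
    subst this
    simp

lemma fac_diffAt {κ : Type} [Fintype κ] (q : ℕ) (w : κ → ℂ) (hw : ∀ k, 0 ≤ (w k).im) :
    DifferentiableAt ℂ (fac (κ := κ) q) w := by
  unfold fac
  have h0 : ∀ k, w k + Complex.I ≠ 0 := by
    intro k h
    have := congrArg Complex.im h
    simp only [Complex.add_im, Complex.I_im, Complex.zero_im] at this
    have := hw k
    linarith
  classical
  have key : ∀ s : Finset κ,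
      DifferentiableAt ℂ (fun w : κ → ℂ => ∏ k ∈ s, ((w k + Complex.I)⁻¹) ^ q) w := by
    intro s
    induction s using Finset.induction_on with
    | empty => simp
    | insert a s ha ih =>
      have : (fun w : κ → ℂ => ∏ k ∈ insert a s, ((w k + Complex.I)⁻¹) ^ q) =
          fun w : κ → ℂ => ((w a + Complex.I)⁻¹) ^ q * ∏ k ∈ s, ((w k + Complex.I)⁻¹) ^ q := by
        funext w
        rw [Finset.prod_insert ha]
      rw [this]
      refine DifferentiableAt.mul ?_ ih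
      apply DifferentiableAt.pow
      apply DifferentiableAt.inv
      · fun_prop
      · exact h0 a
  exact key Finset.univ

lemma fac_ne {κ : Type} [Fintype κ] (q : ℕ) (w : κ → ℂ) (hw : ∀ k, 0 ≤ (w k).im) : fac q w ≠ 0 := by
  unfold fac
  rw [Finset.prod_ne_zero_iff]
  intro k _
  apply pow_ne_zero
  apply inv_ne_zero
  intro h
  have := congrArg Complex.im h
  simp only [Complex.add_im, Complex.I_im, Complex.zero_im] at this
  have := hw k
  linarith

end Pool.Agent.Y574.LC
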