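import Mathlib
import Pool.Agent.Y574.LC.B

set_option autoImplicit false

namespace Pool.Agent.Y574.LC

open MeasureTheory Filter Topology Module

/-- The forward light cone `C_n` of `ℝ^n`, `n = m + 3`:
`y_1 > 0` and `y_1^2 - (y_2^2 + ... + y_n^2) > 0` (the coordinates are numbered from `0` here). -/
def lightCone (m : ℕ) : Set (Fin (m + 3) → ℝ) :=
  {y | 0 < y 0 ∧ 0 < y 0 ^ 2 - ∑ j : Fin (m + 2), y j.succ ^ 2}

lemma pt_cont {ι : Type} (x : ι → ℝ) : Continuous (fun y : ι → ℝ => pt x y) := by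
  unfold pt
  fun_prop

lemma pt_cont' {ι : Type} (y : ι → ℝ) : Continuous (fun x : ι → ℝ => pt x y) := by
  unfold pt
  fun_prop

lemma pt_im {ι : Type} (x y : ι → ℝ) (k : ι) : (pt x y k).im = y k := by
  simp [pt]

lemma lightCone_open (m : ℕ) : IsOpen (lightCone m) := by
  refine IsOpen.inter ?_ ?_
  · exact isOpen_lt continuous_const (continuous_apply 0)
  · have h : Continuous fun y : Fin (m + 3) → ℝ => y 0 ^ 2 - ∑ j : Fin (m + 2), y j.succ ^ 2 := by
      fun_prop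
    exact isOpen_lt continuous_const h

lemma surj_of_lift {ι : Type} [Fintype ι] (m : ℕ) (Γ : Set (ι → ℝ))
    (L : (ι → ℝ) →ₗ[ℝ] (Fin (m + 3) → ℝ)) (A : ℝ)
    (hlift : ∀ u ∈ lightCone m, ∃ y ∈ Γ, L y = u ∧ ‖y‖ ≤ A * ‖u‖) : Function.Surjective L := by
  rw [← LinearMap.range_eq_top]
  apply Submodule.eq_top_of_nonempty_interior'
  refine ⟨Pi.single 0 1, ?_⟩
  rw [mem_interior]
  refine ⟨lightCone m, ?_, lightCone_open m, ?_⟩
  · intro u hu
    obtain ⟨y, -, hy, -⟩ := hlift u hu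
    exact ⟨y, hy⟩
  · refine ⟨by simp, ?_⟩
    simp [Fin.succ_ne_zero]

theorem transfer {ι : Type} [Fintype ι] (m : ℕ) (p : ℝ) (hp : 0 < p) (Γ : Set (ι → ℝ))
    (hΓ : RegularCone Γ) (L : (ι → ℝ) →ₗ[ℝ] (Fin (m + 3) → ℝ))
    (hL : ∀ y ∈ Γ, L y ∈ lightCone m) (A : ℝ)
    (hlift : ∀ u ∈ lightCone m, ∃ y ∈ Γ, L y = u ∧ ‖y‖ ≤ A * ‖u‖)
    (F0 : (Fin (m + 3) → ℂ) → ℂ) (hF0 : InHardy (lightCone m) p F0)
    (E0 : Set (Fin (m + 3) → ℝ)) (hE0m : MeasurableSet E0) (hE0 : 0 < volume E0)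
    (hub : ∀ x ∈ E0, ∀ M δ : ℝ, 0 < δ → ∃ y ∈ lightCone m, ‖y‖ < δ ∧ M < ‖F0 (pt x y)‖) :
    ∃ F : (ι → ℂ) → ℂ, InHardy Γ p F ∧
      ∃ E : Set (ι → ℝ), MeasurableSet E ∧ 0 < volume E ∧ ∀ x ∈ E,
        (∀ M δ : ℝ, 0 < δ → ∃ y ∈ Γ, ‖y‖ < δ ∧ M < ‖F (pt x y)‖) ∧
        ∀ l : ℂ, ¬ Tendsto (fun y : ι → ℝ => F (pt x y)) (𝓝[Γ] 0) (𝓝 l) := by
  classical
  have hLs := surj_of_lift m Γ L A hlift
  obtain ⟨κ, _, P, hP, hbij⟩ := hΓ.exists_compl L hLs
  let Φ : (ι → ℝ) ≃ₗ[ℝ] (Fin (m + 3) → ℝ) × (κ → ℝ) := LinearEquiv.ofBijective (L.prod P) hbij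
  let e : (ι → ℝ) ≃L[ℝ] (Fin (m + 3) → ℝ) × (κ → ℝ) := Φ.toContinuousLinearEquiv
  have he : ∀ x, e x = (L x, P x) := fun x => rfl
  have hLc : Continuous L := LinearMap.continuous_of_finiteDimensional L
  have hPc : Continuous P := LinearMap.continuous_of_finiteDimensional P
  have hHaar : (Measure.map e (volume : Measure (ι → ℝ))).IsAddHaarMeasure := inferInstance
  have hprod : ((volume : Measure (Fin (m + 3) → ℝ)).prod
      (volume : Measure (κ → ℝ))).IsAddHaarMeasure :=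
    Measure.prod.instIsAddHaarMeasure _ _
  obtain ⟨c, hc0, hc⟩ : ∃ c : NNReal, 0 < c ∧ Measure.map e (volume : Measure (ι → ℝ)) =
      c • ((volume : Measure (Fin (m + 3) → ℝ)).prod (volume : Measure (κ → ℝ))) :=
    ⟨_, Measure.addHaarScalarFactor_pos_of_isAddHaarMeasure _ _,
      Measure.isAddLeftInvariant_eq_smul _ _⟩
  obtain ⟨q, hq⟩ : ∃ q : ℕ, (finrank ℝ (κ → ℝ) : ℝ) < q * p := by
    obtain ⟨q, hq⟩ := exists_nat_gt ((finrank ℝ (κ → ℝ) : ℝ) / p)
    exact ⟨q, (div_lt_iff₀ hp).1 hq⟩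
  have hint := integrable_rpow_neg_one_add_norm_sq (μ := (volume : Measure (κ → ℝ))) hq
  set h : (κ → ℝ) → ENNReal := fun u => ENNReal.ofReal ((1 + ‖u‖ ^ 2) ^ (-((q:ℝ) * p) / 2)) with hh
  have hI : ∫⁻ u, h u < ⊤ := hint.lintegral_lt_top
  have hhm : Measurable h := by
    apply ENNReal.measurable_ofReal.comp
    exact Measurable.pow_const (by fun_prop) _
  obtain ⟨hF0d, C0, hC0⟩ := hF0
  have hfacb : ∀ u v : κ → ℝ, (∀ k, 0 ≤ v k) → ‖fac q (pt u v)‖ₑ ^ p ≤ h u := by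
    intro u v hv
    have h1 := fac_bound q u v hv
    rw [hh]
    simp only
    rw [← ofReal_norm, ENNReal.ofReal_rpow_of_nonneg (norm_nonneg _) hp.le]
    apply ENNReal.ofReal_le_ofReal
    have h2 := Real.rpow_le_rpow (norm_nonneg _) h1 hp.le
    refine h2.trans (le_of_eq ?_)
    have hb : 0 ≤ 1 + ‖u‖ ^ 2 := by positivity
    rw [← Real.rpow_natCast, ← Real.rpow_mul hb, ← Real.rpow_mul hb]
    congr 1
    ring
  have hPim : ∀ z : ι → ℂ, (fun k => (z k).im) ∈ Γ → ∀ k, 0 ≤ (cx P z k).im := by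
    intro z hz k
    have h9 : (cx P z k).im = P (fun i => (z i).im) k := congrFun (cx_im P z) k
    rw [h9]
    exact hP _ hz k
  refine ⟨fun z => F0 (cx L z) * fac q (cx P z), ⟨?_, ?_⟩, L ⁻¹' E0, hLc.measurable hE0m, ?_, ?_⟩
  · intro z hz
    have hz' : (fun k => (z k).im) ∈ Γ := hz
    apply DifferentiableWithinAt.mul
    · refine DifferentiableWithinAt.comp z (t := {w | (fun k => (w k).im) ∈ lightCone m}) ?_
        (cx_diff L z).differentiableWithinAt ?_
      · apply hF0d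
        show (fun k => (cx L z k).im) ∈ lightCone m
        rw [cx_im]
        exact hL _ hz'
      · intro w hw
        show (fun k => (cx L w k).im) ∈ lightCone m
        rw [cx_im]
        exact hL _ hw
    · apply DifferentiableAt.differentiableWithinAt
      exact DifferentiableAt.comp (f := cx P) (g := fac q) z (fac_diffAt q (cx P z) (hPim z hz'))
        (cx_diff P z)
  · refine ⟨((c : ENNReal) * (ENNReal.ofReal C0 * ∫⁻ u, h u)).toReal, fun y hy => ?_⟩
    rw [ENNReal.ofReal_toReal (by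
      exact ENNReal.mul_ne_top ENNReal.coe_ne_top (ENNReal.mul_ne_top ENNReal.ofReal_ne_top hI.ne))]
    have hLy := hL y hy
    have hF0c : Continuous fun u : Fin (m + 3) → ℝ => F0 (pt u (L y)) := by
      rw [← continuousOn_univ]
      refine ContinuousOn.comp hF0d.continuousOn (pt_cont' (L y)).continuousOn ?_
      intro u _
      show (fun k => (pt u (L y) k).im) ∈ lightCone m
      simp only [pt_im]
      exact hLy
    have hgm : Measurable fun u : Fin (m + 3) → ℝ => ‖F0 (pt u (L y))‖ₑ ^ p :=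
      (hF0c.measurable.enorm).pow_const p
    calc ∫⁻ x : ι → ℝ, ‖F0 (cx L (pt x y)) * fac q (cx P (pt x y))‖ₑ ^ p
        ≤ ∫⁻ x : ι → ℝ, (fun w : (Fin (m + 3) → ℝ) × (κ → ℝ) =>
            ‖F0 (pt w.1 (L y))‖ₑ ^ p * h w.2) (e x) := by
          apply lintegral_mono
          intro x
          simp only [he]
          rw [cx_pt, cx_pt, enorm_mul, ENNReal.mul_rpow_of_nonneg _ _ hp.le]
          gcongr
          exact hfacb _ _ (hP y hy)
      _ = ∫⁻ w, ‖F0 (pt w.1 (L y))‖ₑ ^ p * h w.2 ∂(Measure.map e volume) := by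
          rw [lintegral_map _ e.continuous.measurable]
          exact (hgm.comp measurable_fst).mul (hhm.comp measurable_snd)
      _ = (c : ENNReal) * ((∫⁻ u, ‖F0 (pt u (L y))‖ₑ ^ p) * ∫⁻ u, h u) := by
          rw [hc, lintegral_smul_measure, lintegral_prod_mul hgm.aemeasurable hhm.aemeasurable]
          rfl
      _ ≤ _ := by
          gcongr
          exact hC0 _ hLy
  · have h1 : L ⁻¹' E0 = e ⁻¹' (E0 ×ˢ (Set.univ : Set (κ → ℝ))) := by
      ext x
      simp [he]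
    have h2 : volume (L ⁻¹' E0) = (Measure.map e volume) (E0 ×ˢ (Set.univ : Set (κ → ℝ))) := by
      rw [Measure.map_apply e.continuous.measurable (hE0m.prod MeasurableSet.univ), h1]
    rw [h2, hc, Measure.smul_apply, Measure.prod_prod]
    have h3 : (volume : Measure (κ → ℝ)) Set.univ ≠ 0 :=
      (isOpen_univ.measure_pos volume Set.univ_nonempty).ne'
    have h4 : (c : ENNReal) ≠ 0 := by exact_mod_cast hc0.ne'
    exact pos_iff_ne_zero.2 (mul_ne_zero h4 (mul_ne_zero hE0.ne' h3))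
  · intro x hx
    have hmain : ∀ M δ : ℝ, 0 < δ → ∃ y ∈ Γ, ‖y‖ < δ ∧
        M < ‖F0 (cx L (pt x y)) * fac q (cx P (pt x y))‖ := by
      intro M δ hδ
      have hne : fac q (pt (P x) 0) ≠ 0 := fac_ne q _ (fun k => by rw [pt_im]; rfl)
      have hcont : ContinuousAt (fun y : ι → ℝ => ‖fac q (pt (P x) (P y))‖) 0 := by
        apply ContinuousAt.norm
        have h1 : ContinuousAt (fac q) (pt (P x) (P 0)) :=
          (fac_diffAt q _ (fun k => by rw [pt_im, map_zero]; rfl)).continuousAt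
        exact ContinuousAt.comp (f := fun y : ι → ℝ => pt (P x) (P y)) h1
          (((pt_cont (P x)).comp hPc).continuousAt)
      have hg0 : 0 < ‖fac q (pt (P x) (P 0))‖ := by
        rw [map_zero]
        exact norm_pos_iff.2 hne
      set g0 := ‖fac q (pt (P x) (P 0))‖ with hg0def
      have hev : ∀ᶠ y in 𝓝 (0 : ι → ℝ), g0 / 2 < ‖fac q (pt (P x) (P y))‖ :=
        hcont.eventually (lt_mem_nhds (half_lt_self hg0))
      obtain ⟨δ0, hδ0, hball⟩ := Metric.eventually_nhds_iff.1 hev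
      have hA : 0 < |A| + 1 := by positivity
      obtain ⟨u, hu, hun, huF⟩ := hub (L x) hx ((|M| + 1) / (g0 / 2)) (min δ δ0 / (|A| + 1))
        (div_pos (lt_min hδ hδ0) hA)
      obtain ⟨y, hy, hyu, hyn⟩ := hlift u hu
      have hyn2 : ‖y‖ < min δ δ0 := by
        have h1 : A * ‖u‖ ≤ (|A| + 1) * ‖u‖ := by
          apply mul_le_mul_of_nonneg_right _ (norm_nonneg _)
          linarith [le_abs_self A]
        have h2 : (|A| + 1) * ‖u‖ < min δ δ0 := by
          rw [lt_div_iff₀ hA] at hun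
          linarith
        linarith
      refine ⟨y, hy, hyn2.trans_le (min_le_left _ _), ?_⟩
      rw [cx_pt, cx_pt, norm_mul, hyu]
      have h3 : g0 / 2 < ‖fac q (pt (P x) (P y))‖ :=
        hball (by rw [dist_zero_right]; exact hyn2.trans_le (min_le_right _ _))
      have h4 : (|M| + 1) / (g0 / 2) * (g0 / 2) = |M| + 1 := by
        field_simp
      have h5 : (|M| + 1) / (g0 / 2) * (g0 / 2) ≤ ‖F0 (pt (L x) u)‖ * ‖fac q (pt (P x) (P y))‖ :=
        mul_le_mul huF.le h3.le (by positivity) (norm_nonneg _)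
      have := le_abs_self M
      linarith
    refine ⟨hmain, ?_⟩
    intro l hl
    have h1 : ∀ᶠ y in 𝓝[Γ] (0 : ι → ℝ),
        ‖F0 (cx L (pt x y)) * fac q (cx P (pt x y))‖ < ‖l‖ + 1 :=
      hl.norm.eventually (gt_mem_nhds (lt_add_one _))
    obtain ⟨δ, hδ, hball⟩ := Metric.mem_nhdsWithin_iff.1 h1
    obtain ⟨y, hy, hyn, hyM⟩ := hmain (‖l‖ + 1) δ hδ
    have h2 := hball ⟨by rwa [Metric.mem_ball, dist_zero_right], hy⟩
    exact lt_asymm h2 hyM

end Pool.Agent.Y574.LC
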