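import Mathlib
import Pool.Agent.Y574.LC.C

set_option autoImplicit false

namespace Pool.Agent.Y574.LC

open MeasureTheory Filter Topology Module

/-- The bilinear form of the symmetric matrix with entries `y s(i, j)`. -/
def bil {r : ℕ} (y : Sym2 (Fin r) → ℝ) (x z : Fin r → ℝ) : ℝ := ∑ i, ∑ j, y s(i, j) * x i * z j

/-- The cone of the positive definite symmetric `r × r` matrices. A symmetric matrix is given by
its entries `y s(i, j) = y s(j, i)`. -/
def posDefCone (r : ℕ) : Set (Sym2 (Fin r) → ℝ) :=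
  {y | ∀ x : Fin r → ℝ, x ≠ 0 → 0 < ∑ i, ∑ j, y s(i, j) * x i * x j}

lemma mem_pd {r : ℕ} {y : Sym2 (Fin r) → ℝ} :
    y ∈ posDefCone r ↔ ∀ x : Fin r → ℝ, x ≠ 0 → 0 < bil y x x := Iff.rfl

lemma bil_add {r : ℕ} (y y' : Sym2 (Fin r) → ℝ) (x z : Fin r → ℝ) :
    bil (y + y') x z = bil y x z + bil y' x z := by
  simp only [bil, Pi.add_apply, add_mul, Finset.sum_add_distrib]

lemma bil_smul {r : ℕ} (t : ℝ) (y : Sym2 (Fin r) → ℝ) (x z : Fin r → ℝ) :
    bil (t • y) x z = t * bil y x z := by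
  simp only [bil, Pi.smul_apply, smul_eq_mul, Finset.mul_sum]
  refine Finset.sum_congr rfl fun i _ => Finset.sum_congr rfl fun j _ => ?_
  ring

lemma bil_scale {r : ℕ} (t : ℝ) (y : Sym2 (Fin r) → ℝ) (x : Fin r → ℝ) :
    bil y (t • x) (t • x) = t ^ 2 * bil y x x := by
  simp only [bil, Pi.smul_apply, smul_eq_mul, Finset.mul_sum]
  refine Finset.sum_congr rfl fun i _ => Finset.sum_congr rfl fun j _ => ?_
  ring

lemma bil_two {r : ℕ} (y : Sym2 (Fin r) → ℝ) (i j : Fin r) (a b : ℝ) :
    bil y (Pi.single i a + Pi.single j b) (Pi.single i a + Pi.single j b) =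
      a ^ 2 * y s(i, i) + 2 * a * b * y s(i, j) + b ^ 2 * y s(j, j) := by
  have h : y s(j, i) = y s(i, j) := by rw [Sym2.eq_swap]
  simp only [bil, Pi.add_apply, mul_add, add_mul, Finset.sum_add_distrib]
  simp only [Pi.single_apply, mul_ite, ite_mul, mul_zero, zero_mul, Finset.sum_ite_eq',
    Finset.mem_univ, if_true]
  rw [h]
  ring

lemma bil_cont {r : ℕ} : Continuous fun w : (Sym2 (Fin r) → ℝ) × (Fin r → ℝ) => bil w.1 w.2 w.2 := by
  unfold bil
  fun_prop

lemma pd_regular (r : ℕ) : RegularCone (posDefCone r) := by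
  refine ⟨?_, ?_, ?_, ?_, ?_⟩
  · refine ⟨fun z => if z.IsDiag then 1 else 0, ?_⟩
    rw [mem_pd]
    intro x hx
    obtain ⟨i, hi⟩ := Function.ne_iff.1 hx
    have h1 : bil (fun z : Sym2 (Fin r) => if z.IsDiag then (1:ℝ) else 0) x x = ∑ i, x i ^ 2 := by
      unfold bil
      refine Finset.sum_congr rfl fun i _ => ?_
      simp only [Sym2.mk_isDiag_iff, ite_mul, one_mul, zero_mul, Finset.sum_ite_eq,
        Finset.mem_univ, if_true]
      ring
    rw [h1]
    exact Finset.sum_pos' (fun _ _ => sq_nonneg _) ⟨i, Finset.mem_univ i, by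
      have : x i ≠ 0 := hi
      positivity⟩
  · rw [isOpen_iff_mem_nhds]
    intro y hy
    have h1 : ∀ᶠ y' in 𝓝 y, ∀ x ∈ Metric.sphere (0 : Fin r → ℝ) 1, 0 < bil y' x x := by
      apply (isCompact_sphere (0 : Fin r → ℝ) 1).eventually_forall_of_forall_eventually
      intro x hx
      have hx0 : x ≠ 0 := by
        rintro rfl
        simp at hx
      have : 0 < (fun w : (Sym2 (Fin r) → ℝ) × (Fin r → ℝ) => bil w.1 w.2 w.2) (y, x) :=
        mem_pd.1 hy x hx0
      exact bil_cont.continuousAt.eventually (lt_mem_nhds this)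
    filter_upwards [h1] with y' hy'
    rw [mem_pd]
    intro x hx
    have hn : 0 < ‖x‖ := norm_pos_iff.2 hx
    have h2 := hy' (‖x‖⁻¹ • x) (by
      rw [mem_sphere_zero_iff_norm, norm_smul, norm_inv, norm_norm]
      exact inv_mul_cancel₀ hn.ne')
    rw [bil_scale] at h2
    exact (mul_pos_iff_of_pos_left (by positivity)).1 h2
  · intro y hy y' hy' a b ha hb hab
    rw [mem_pd]
    intro x hx
    rw [bil_add, bil_smul, bil_smul]
    have h1 := mem_pd.1 hy x hx
    have h2 := mem_pd.1 hy' x hx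
    rcases ha.eq_or_lt with h | h
    · have hb1 : b = 1 := by linarith
      rw [← h, hb1]
      linarith
    · have := mul_pos h h1
      have := mul_nonneg hb h2.le
      linarith
  · intro y hy t ht
    rw [mem_pd]
    intro x hx
    rw [bil_smul]
    exact mul_pos ht (mem_pd.1 hy x hx)
  · intro y v hv
    by_contra hcon
    push Not at hcon
    apply hv
    have h1 : ∀ x : Fin r → ℝ, x ≠ 0 → bil v x x = 0 := by
      intro x hx
      by_contra hne
      have h2 := mem_pd.1 (hcon (-(bil y x x) / bil v x x)) x hx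
      rw [bil_add, bil_smul, div_mul_cancel₀ _ hne] at h2
      linarith
    have h3 : ∀ i, v s(i, i) = 0 := by
      intro i
      have h4 := h1 (Pi.single i 1 + Pi.single i 0) (by
        intro h
        have := congrFun h i
        simp at this)
      rw [bil_two] at h4
      linarith
    funext z
    induction z using Sym2.ind with
    | _ i j =>
      by_cases hij : i = j
      · rw [hij, h3]; rfl
      · have h4 := h1 (Pi.single i 1 + Pi.single j 1) (by
          intro h
          have := congrFun h i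
          simp [hij] at this)
        rw [bil_two, h3, h3] at h4
        show v s(i, j) = 0
        linarith

/-- the projection to the upper left `2 × 2` block, in the coordinates of the light cone -/
noncomputable def corner (k : ℕ) : (Sym2 (Fin (k + 2)) → ℝ) →ₗ[ℝ] (Fin (0 + 3) → ℝ) where
  toFun y := ![(y s(0, 0) + y s(1, 1)) / 2, (y s(0, 0) - y s(1, 1)) / 2, y s(0, 1)]
  map_add' y y' := by
    ext i
    fin_cases i <;> simp <;> ring
  map_smul' t y := by
    ext i
    fin_cases i <;> simp <;> ring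

lemma corner_mem (k : ℕ) (y : Sym2 (Fin (k + 2)) → ℝ) (hy : y ∈ posDefCone (k + 2)) :
    corner k y ∈ lightCone 0 := by
  have h01 : (0 : Fin (k + 2)) ≠ 1 := by simp
  have h0 := mem_pd.1 hy (Pi.single 0 1 + Pi.single 0 0) (by
    intro h
    have := congrFun h 0
    simp at this)
  have h1 := mem_pd.1 hy (Pi.single 1 1 + Pi.single 1 0) (by
    intro h
    have := congrFun h 1
    simp at this)
  rw [bil_two] at h0 h1
  have h0' : 0 < y s(0, 0) := by linarith
  have h1' : 0 < y s(1, 1) := by linarith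
  have h2 := mem_pd.1 hy (Pi.single 0 (y s(1, 1)) + Pi.single 1 (-y s(0, 1))) (by
    intro h
    have := congrFun h 0
    simp at this
    exact h1'.ne' this)
  rw [bil_two] at h2
  have h3 : 0 < y s(1, 1) * (y s(0, 0) * y s(1, 1) - y s(0, 1) ^ 2) := by linarith
  have h4 : 0 < y s(0, 0) * y s(1, 1) - y s(0, 1) ^ 2 := (mul_pos_iff_of_pos_left h1').1 h3
  refine ⟨?_, ?_⟩
  · show 0 < (y s(0, 0) + y s(1, 1)) / 2
    linarith
  · have h5 : ∑ j : Fin (0 + 2), corner k y j.succ ^ 2 =
        ((y s(0, 0) - y s(1, 1)) / 2) ^ 2 + (y s(0, 1)) ^ 2 := by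
      rw [Fin.sum_univ_two]
      rfl
    rw [h5]
    show 0 < ((y s(0, 0) + y s(1, 1)) / 2) ^ 2 - _
    nlinarith

/-- a block diagonal positive definite matrix with a given upper left block -/
def liftFun (k : ℕ) (u : Fin (0 + 3) → ℝ) : Sym2 (Fin (k + 2)) → ℝ :=
  Sym2.lift ⟨fun i j => if i = j then (if i = 0 then u 0 + u 1 else if i = 1 then u 0 - u 1 else u 0)
    else (if (i = 0 ∧ j = 1) ∨ (i = 1 ∧ j = 0) then u 2 else 0), by
    intro i j
    by_cases h : i = j
    · subst h; rfl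
    · have h' : ¬ j = i := fun h2 => h h2.symm
      simp only [if_neg h, if_neg h']
      congr 1
      apply propext
      tauto⟩

lemma liftFun_apply (k : ℕ) (u : Fin (0 + 3) → ℝ) (i j : Fin (k + 2)) :
    liftFun k u s(i, j) = if i = j then (if i = 0 then u 0 + u 1 else if i = 1 then u 0 - u 1 else u 0)
    else (if (i = 0 ∧ j = 1) ∨ (i = 1 ∧ j = 0) then u 2 else 0) := rfl

lemma corner_lift (k : ℕ) (u : Fin (0 + 3) → ℝ) : corner k (liftFun k u) = u := by
  ext i
  show (![(liftFun k u s(0, 0) + liftFun k u s(1, 1)) / 2,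
    (liftFun k u s(0, 0) - liftFun k u s(1, 1)) / 2, liftFun k u s(0, 1)] : Fin 3 → ℝ) i = u i
  simp only [liftFun_apply]
  fin_cases i <;> simp

lemma lift_norm (k : ℕ) (u : Fin (0 + 3) → ℝ) : ‖liftFun k u‖ ≤ 2 * ‖u‖ := by
  have h0 := norm_le_pi_norm u 0
  have h1 := norm_le_pi_norm u 1
  have h2 := norm_le_pi_norm u 2
  rw [Real.norm_eq_abs] at h0 h1 h2
  have hn := norm_nonneg u
  rw [pi_norm_le_iff_of_nonneg (by positivity)]
  intro z
  induction z using Sym2.ind with
  | _ i j =>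
    rw [liftFun_apply, Real.norm_eq_abs]
    split_ifs
    · have := abs_add_le (u 0) (u 1); linarith
    · have := abs_sub (u 0) (u 1); linarith
    · linarith
    · linarith
    · rw [abs_zero]; linarith

lemma lift_mem (k : ℕ) (u : Fin (0 + 3) → ℝ) (hu : u ∈ lightCone 0) :
    liftFun k u ∈ posDefCone (k + 2) := by
  obtain ⟨hu0, hu1⟩ := hu
  rw [Fin.sum_univ_two] at hu1
  have hu2 : 0 < u 0 ^ 2 - (u 1 ^ 2 + u 2 ^ 2) := hu1
  rw [mem_pd]
  intro x hx
  have key : bil (liftFun k u) x x = (u 0 + u 1) * x 0 ^ 2 + (u 0 - u 1) * x 1 ^ 2 +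
      2 * u 2 * x 0 * x 1 + u 0 * ∑ i : Fin k, x i.succ.succ ^ 2 := by
    have hrow0 : ∑ j, liftFun k u s(0, j) * x 0 * x j = (u 0 + u 1) * x 0 ^ 2 + u 2 * x 0 * x 1 := by
      rw [Fin.sum_univ_succ, Fin.sum_univ_succ]
      have h0 : ∀ j : Fin k, liftFun k u s(0, j.succ.succ) = 0 := by
        intro j
        rw [liftFun_apply, if_neg (Fin.succ_ne_zero _).symm, if_neg]
        rintro (⟨-, h⟩ | ⟨h, -⟩)
        · exact Fin.succ_ne_zero j (Fin.succ_injective _ h)
        · exact absurd h (by simp)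
      have h1 : liftFun k u s(0, 0) = u 0 + u 1 := by rw [liftFun_apply]; simp
      have h2 : liftFun k u s(0, (0 : Fin (k + 1)).succ) = u 2 := by
        rw [liftFun_apply]; simp
      rw [h1, h2]
      simp only [h0, zero_mul, Finset.sum_const_zero, add_zero]
      show (u 0 + u 1) * x 0 * x 0 + u 2 * x 0 * x 1 = _
      ring
    have hrow1 : ∑ j, liftFun k u s(1, j) * x 1 * x j = u 2 * x 0 * x 1 + (u 0 - u 1) * x 1 ^ 2 := by
      rw [Fin.sum_univ_succ, Fin.sum_univ_succ]
      have h0 : ∀ j : Fin k, liftFun k u s(1, j.succ.succ) = 0 := by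
        intro j
        have hne : (1 : Fin (k + 2)) ≠ j.succ.succ := by
          intro h
          have h' : j.succ.succ = (0 : Fin (k + 1)).succ := h.symm
          exact Fin.succ_ne_zero j (Fin.succ_injective _ h')
        rw [liftFun_apply, if_neg hne, if_neg]
        rintro (⟨h, -⟩ | ⟨-, h⟩)
        · exact absurd h (by simp)
        · exact absurd h (Fin.succ_ne_zero _)
      have h1 : liftFun k u s(1, 0) = u 2 := by rw [liftFun_apply]; simp
      have h2 : liftFun k u s(1, (0 : Fin (k + 1)).succ) = u 0 - u 1 := by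
        rw [liftFun_apply]; simp
      rw [h1, h2]
      simp only [h0, zero_mul, Finset.sum_const_zero, add_zero]
      show u 2 * x 1 * x 0 + (u 0 - u 1) * x 1 * x 1 = _
      ring
    have hrow2 : ∀ i : Fin k, ∑ j, liftFun k u s(i.succ.succ, j) * x i.succ.succ * x j =
        u 0 * x i.succ.succ ^ 2 := by
      intro i
      rw [Finset.sum_eq_single i.succ.succ]
      · have h1 : liftFun k u s(i.succ.succ, i.succ.succ) = u 0 := by
          rw [liftFun_apply, if_pos rfl, if_neg (Fin.succ_ne_zero _), if_neg]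
          intro h
          exact Fin.succ_ne_zero i (Fin.succ_injective _ h)
        rw [h1]
        ring
      · intro j _ hj
        have h1 : liftFun k u s(i.succ.succ, j) = 0 := by
          rw [liftFun_apply, if_neg hj.symm, if_neg]
          rintro (⟨h, -⟩ | ⟨h, -⟩)
          · exact Fin.succ_ne_zero _ h
          · exact Fin.succ_ne_zero i (Fin.succ_injective _ h)
        rw [h1]
        ring
      · intro h
        exact absurd (Finset.mem_univ _) h
    unfold bil
    rw [Fin.sum_univ_succ (n := k + 1), Fin.sum_univ_succ (n := k)]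
    simp only [hrow2]
    rw [← Finset.mul_sum]
    have hrow1' : ∑ j, liftFun k u s((0 : Fin (k + 1)).succ, j) * x (0 : Fin (k + 1)).succ * x j =
        u 2 * x 0 * x 1 + (u 0 - u 1) * x 1 ^ 2 := hrow1
    rw [hrow0, hrow1']
    ring
  rw [key]
  have hpos1 : 0 < u 0 + u 1 := by nlinarith [sq_nonneg (u 2), abs_lt_of_sq_lt_sq' (a := u 1) (b := u 0) (by nlinarith [sq_nonneg (u 2)]) hu0.le]
  have hpos2 : 0 < u 0 - u 1 := by
    have := (abs_lt_of_sq_lt_sq' (a := u 1) (b := u 0) (by nlinarith [sq_nonneg (u 2)]) hu0.le).2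
    linarith
  have hsum : 0 ≤ ∑ i : Fin k, x i.succ.succ ^ 2 := Finset.sum_nonneg fun _ _ => sq_nonneg _
  -- the `2 × 2` block
  have hblock : (u 0 + u 1) * ((u 0 + u 1) * x 0 ^ 2 + (u 0 - u 1) * x 1 ^ 2 +
      2 * u 2 * x 0 * x 1) = ((u 0 + u 1) * x 0 + u 2 * x 1) ^ 2 +
      (u 0 ^ 2 - (u 1 ^ 2 + u 2 ^ 2)) * x 1 ^ 2 := by ring
  have hblock0 : 0 ≤ (u 0 + u 1) * x 0 ^ 2 + (u 0 - u 1) * x 1 ^ 2 + 2 * u 2 * x 0 * x 1 := by
    have : 0 ≤ (u 0 + u 1) * ((u 0 + u 1) * x 0 ^ 2 + (u 0 - u 1) * x 1 ^ 2 +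
        2 * u 2 * x 0 * x 1) := by rw [hblock]; positivity
    exact nonneg_of_mul_nonneg_right this hpos1
  by_cases hx01 : x 0 = 0 ∧ x 1 = 0
  · have hex : ∃ i : Fin k, x i.succ.succ ≠ 0 := by
      by_contra hcon
      push Not at hcon
      apply hx
      funext i
      refine Fin.cases hx01.1 (fun i => ?_) i
      refine Fin.cases ?_ (fun i => ?_) i
      · exact hx01.2
      · exact hcon i
    obtain ⟨i, hi⟩ := hex
    have h1 : 0 < ∑ i : Fin k, x i.succ.succ ^ 2 :=
      Finset.sum_pos' (fun _ _ => sq_nonneg _) ⟨i, Finset.mem_univ i, by positivity⟩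
    have := mul_pos hu0 h1
    linarith
  · have h1 : 0 < (u 0 + u 1) * x 0 ^ 2 + (u 0 - u 1) * x 1 ^ 2 + 2 * u 2 * x 0 * x 1 := by
      refine lt_of_le_of_ne hblock0 fun h => hx01 ?_
      rw [← h, mul_zero] at hblock
      have h3 : 0 ≤ ((u 0 + u 1) * x 0 + u 2 * x 1) ^ 2 := sq_nonneg _
      have h4 : 0 ≤ (u 0 ^ 2 - (u 1 ^ 2 + u 2 ^ 2)) * x 1 ^ 2 := by positivity
      have h5 : (u 0 ^ 2 - (u 1 ^ 2 + u 2 ^ 2)) * x 1 ^ 2 = 0 := by linarith
      have h6 : x 1 = 0 := by
        rcases mul_eq_zero.1 h5 with h | h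
        · exact absurd h hu2.ne'
        · exact pow_eq_zero_iff (two_ne_zero) |>.1 h
      have h7 : ((u 0 + u 1) * x 0 + u 2 * x 1) ^ 2 = 0 := by linarith
      have h8 := pow_eq_zero_iff (two_ne_zero) |>.1 h7
      rw [h6, mul_zero, add_zero] at h8
      rcases mul_eq_zero.1 h8 with h | h
      · exact absurd h hpos1.ne'
      · exact ⟨h, h6⟩
    have := mul_nonneg hu0.le hsum
    linarith

end Pool.Agent.Y574.LC
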