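import Mathlib
import Pool.Agent.Helper682.HU.HB5
import Pool.Agent.Y574.LC.D

/-!
# Unrestricted boundary limits fail on all cones that project onto a light cone

Let `Γ` be a regular cone and let `L` be a linear map from its space to `ℝ^n`, `n ≥ 3`, which maps
`Γ` to the light cone `C_n`, such that every `u ∈ C_n` has a preimage `y ∈ Γ` with `‖y‖ ≤ A ‖u‖`.
Then for every finite `p > 0` unrestricted boundary limits fail for `H^p(T_Γ)` on a set of positive
measure. This applies to the cone of the positive definite symmetric `r × r` matrices, `r ≥ 2`,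
with `L` the projection to the upper left `2 × 2` block.

Idea: complete `L` by functionals `P_1, ..., P_d` that are nonnegative on `Γ` to a linear
isomorphism (they exist because `Γ` is regular), and take
`F(z) = F_0(L z) ∏ (P_k z + i) ^ (-q)`, where `F_0` is the function on the tube over the light cone
from the file of Helper682.
-/

set_option autoImplicit false

namespace Pool.Agent.Y574.LC.Cones

open MeasureTheory Filter Topology Pool.Agent.Y574.LC

/-- Unrestricted convergence fails for `H^p(T_Γ)` on a set of positive measure: some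
`F ∈ H^p(T_Γ)` has for all `x` in a set of positive measure the property that `F(x + i y)` is
unbounded as `y → 0` in `Γ`, hence has no unrestricted limit at `x`. -/
def UnrestrictedFails {ι : Type} [Fintype ι] (Γ : Set (ι → ℝ)) (p : ℝ) : Prop :=
  ∃ F : (ι → ℂ) → ℂ, InHardy Γ p F ∧
    ∃ E : Set (ι → ℝ), MeasurableSet E ∧ 0 < volume E ∧ ∀ x ∈ E,
      (∀ M δ : ℝ, 0 < δ → ∃ y ∈ Γ, ‖y‖ < δ ∧ M < ‖F (pt x y)‖) ∧
      ∀ l : ℂ, ¬ Tendsto (fun y : ι → ℝ => F (pt x y)) (𝓝[Γ] 0) (𝓝 l)

/-- **Failure of unrestricted limits for all cones over light cones.** Let `0 < p < ∞`.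
(1) Let `Γ` be a regular cone, `n = m + 3 ≥ 3`, and `L` a linear map to `ℝ^n` which maps `Γ` to the
light cone `C_n`, such that each `u ∈ C_n` is `L y` for some `y ∈ Γ` with `‖y‖ ≤ A ‖u‖`. Then
unrestricted convergence fails for `H^p(T_Γ)` on a set of positive measure.
(2) The cone of the positive definite symmetric `r × r` matrices, `r ≥ 2`, is a regular cone for
which unrestricted convergence fails for `H^p(T_Γ)` on a set of positive measure. -/
theorem result (p : ℝ) (hp : 0 < p) :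
    (∀ (m : ℕ) (ι : Type) [Fintype ι] (Γ : Set (ι → ℝ)) (L : (ι → ℝ) →ₗ[ℝ] (Fin (m + 3) → ℝ))
      (A : ℝ), RegularCone Γ → (∀ y ∈ Γ, L y ∈ lightCone m) →
      (∀ u ∈ lightCone m, ∃ y ∈ Γ, L y = u ∧ ‖y‖ ≤ A * ‖u‖) → UnrestrictedFails Γ p) ∧
    (∀ r : ℕ, 2 ≤ r → RegularCone (posDefCone r) ∧ UnrestrictedFails (posDefCone r) p) := by
  have main : ∀ (m : ℕ) (ι : Type) [Fintype ι] (Γ : Set (ι → ℝ))
      (L : (ι → ℝ) →ₗ[ℝ] (Fin (m + 3) → ℝ)) (A : ℝ), RegularCone Γ →
      (∀ y ∈ Γ, L y ∈ lightCone m) →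
      (∀ u ∈ lightCone m, ∃ y ∈ Γ, L y = u ∧ ‖y‖ ≤ A * ‖u‖) → UnrestrictedFails Γ p := by
    intro m ι _ Γ L A hΓ hL hlift
    obtain ⟨F0, hF0, E0, hE0m, hE0, hE⟩ := Pool.Agent.Helper682.HU.main_all m p hp
    exact transfer m p hp Γ hΓ L hL A hlift F0 hF0 E0 hE0m hE0 (fun x hx => (hE x hx).1)
  refine ⟨main, fun r hr => ⟨pd_regular r, ?_⟩⟩
  obtain ⟨k, rfl⟩ : ∃ k, r = k + 2 := ⟨r - 2, by omega⟩
  exact main 0 _ (posDefCone (k + 2)) (corner k) 2 (pd_regular _) (corner_mem k)
    (fun u hu => ⟨liftFun k u, lift_mem k u hu, corner_lift k u, lift_norm k u⟩)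

end Pool.Agent.Y574.LC.Cones
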